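import Pool.Agent.N500.LPi.AllK
import Pool.Agent.N500.LPi.Hom
import Pool.Agent.N500.LPi.Pi

/-!
# The periods near a given point produce no new numbers: `e`, `1 / π`, Euler's constant

Polynomials with algebraic coefficients in the periods of the algebraic forms on a variety over the algebraic numbers are
periods in the sense of Kontsevich and Zagier. Is one of the numbers `e`, `1 / π`, `γ` of this kind? Fix a countable set
`L` of complex numbers, for instance the algebraic closure in `ℂ` of the field `ℚ(e, π, γ)`. Consider a family with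
symplectic monodromy (for instance the products of the hyperelliptic curves) over an open subset `U` of `ℂ ^ X`. For all
`ξ` in `U` outside a set of small Hausdorff dimension (of dimension zero if there is one parameter) the periods of the
members of the family over number fields `K` which are close to `ξ` are as independent as possible of `L`: all relations
between these periods with coefficients in `L` (of bounded degree and with bounded integers of `K` in them) follow from
the Riemann relations. Consequently, for every ring `R` which contains `π` and the algebraic numbers, a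
number of `L` is a polynomial in the periods with coefficients in `R` only if it is in `R`; for every algebraically closed
field `M` which contains `π`, numbers of `L` which are linearly independent over `M` are linearly independent over the ring
generated by `M ∩ L` and the periods; for every algebraically closed field `M`, numbers of `L` which are linearly
independent over `M` are linearly independent over the homogeneous polynomials of the same degree in the periods with
coefficients in `M ∩ L`. In particular (`M` the field of the algebraic numbers) `e` satisfies no algebraic equation with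
homogeneous polynomials of the same degree in the periods as coefficients, and the same is true for `1 / π`.

The definitions (`Pool.Agent.Y890.SM`, `Pool.Agent.Y890.MV`, `Pool.Agent.Y120`, `Pool.Agent.R349.PC`):
* `SympFam X n` : the families; `F.P i x` the matrices of periods, `F.Q i` and `F.J i` the polarizations;
* `F.torsor x` : the pairs `(Y, μ)`, `μ ≠ 0`, with `Y i * Q i(x) * (Y i)ᵀ = μ ^ w i J i` for all `i`; it contains the
  matrices of the periods and `tpi = 2 π i`;
* `pol io c Y` : the polynomial with coefficients `c l` of degree at most `k` in each entry of the matrices `Y i`;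
* `Bd k T x` : all conjugates of the integer `x` of `K` are at most `T ^ k`;
* `Y120.HtLe K T x` : `x` is the quotient of two integers of `K` with all conjugates at most `T`;
* `Qpi` (`Pool.Agent.N500.LPi`) : the ring of the polynomials in `π` with algebraic coefficients;
* `Y890.HE.Conf n`, `Y890.HE.pm n e` : the branch points `e i r`, `r ≤ n i`, with increasing real parts, and the matrices
  of the periods of `x ^ j dx / y` on `y² = ∏ (x - e i r)`.
-/

set_option autoImplicit false

open NumberField

namespace Pool.Agent.Results.MP_725b61_nt.NoNewNumbersNearAPoint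

open Pool.Agent Pool.Agent.Y890.MV Pool.Agent.Y890.SM Pool.Agent.R349.PC
open Pool.Agent.N500.LPi (Qpi)

variable {X : Type} [Fintype X] [DecidableEq X] {ι : Type} [Fintype ι] [DecidableEq ι] {n : ι → ℕ}

/-- the coordinates of `s` are elements of `K` of height at most `T` at distance at most `r` from those of `ξ` -/
def Near {K : Type} [Field K] [NumberField K] (io : K →+* ℂ) (T r : ℝ) (ξ : X → ℂ) (s : X → K) : Prop :=
  ∀ j, Y120.HtLe K T (s j) ∧ ‖ξ j - io (s j)‖ ≤ r

/-- the numbers `ζ a`, `ρ b` and the periods at `x` (polynomials of degree at most `k` in each period, the coefficients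
integers of `K` with conjugates at most `T ^ k`) -/
structure Free (F : SympFam X n) (K : Type) [Field K] [NumberField K] (io : K →+* ℂ) (k : ℕ) (T : ℝ)
    {A B : Type} [Fintype A] [Fintype B] (ζ : A → ℂ) (ρ : B → ℂ) (x : X → ℂ) : Prop where
  /-- the relations with the coefficients `ζ a` hold at all `Y` with `(Y, 2 π i)` in the torsor -/
  rel : ∀ c : A → (Ix n → Fin (k + 1)) → 𝓞 K, (∀ a l, Bd k T (c a l)) →
    ∑ a, ζ a * pol io (c a) (fun i => F.P i x) = 0 → ∀ Y, (Y, tpi) ∈ F.torsor x → ∑ a, ζ a * pol io (c a) Y = 0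
  /-- if a ring `R` contains the algebraic numbers, `π` and the `ρ b`, then every `ζ a` of the form
  `(1 / q) ∑ b, ρ b * (polynomial in the periods)` is in `R` -/
  ring : ∀ R : Subring ℂ, (∀ z : ℂ, IsAlgebraic ℚ z → z ∈ R) → (Real.pi : ℂ) ∈ R → (∀ b, ρ b ∈ R) →
    ∀ (a : A) (q : 𝓞 K) (c : B → (Ix n → Fin (k + 1)) → 𝓞 K), q ≠ 0 → Bd k T q → (∀ b l, Bd k T (c b l)) →
      io (q : K) * ζ a = ∑ b, ρ b * pol io (c b) (fun i => F.P i x) → ζ a ∈ R
  /-- if the `ζ a` are linearly independent over an algebraically closed field `M` which contains `π` and the `ρ b`,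
  then there is no relation between them with coefficients of the form `∑ b, ρ b * (polynomial in the periods)`
  which are not all zero -/
  field : ∀ M : Subfield ℂ, IsAlgClosed M → (Real.pi : ℂ) ∈ M → (∀ b, ρ b ∈ M) → LinearIndependent M ζ →
    ∀ c : A → B → (Ix n → Fin (k + 1)) → 𝓞 K, (∀ a b l, Bd k T (c a b l)) →
      ∑ a, ζ a * ∑ b, ρ b * pol io (c a b) (fun i => F.P i x) = 0 →
        ∀ a, ∑ b, ρ b * pol io (c a b) (fun i => F.P i x) = 0
  /-- if the `ζ a` are linearly independent over an algebraically closed field `M` which contains the `ρ b` (but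
  perhaps not `π`), then there is no relation between them with coefficients of the form `∑ b, ρ b * (homogeneous
  polynomial in the periods)` which are not all zero, the polynomials all of the same weight `d` (the periods in the
  `i`-th matrix have the weight `F.w i`) -/
  hom : ∀ M : Subfield ℂ, IsAlgClosed M → (∀ b, ρ b ∈ M) → LinearIndependent M ζ →
    ∀ (d : ℕ) (c : A → B → (Ix n → Fin (k + 1)) → 𝓞 K), (∀ a b l, Bd k T (c a b l)) →
      (∀ a b l, c a b l ≠ 0 → ∑ y : Ix n, F.w y.1 * (l y : ℕ) = d) →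
      ∑ a, ζ a * ∑ b, ρ b * pol io (c a b) (fun i => F.P i x) = 0 →
        ∀ a, ∑ b, ρ b * pol io (c a b) (fun i => F.P i x) = 0

theorem free_of (F : SympFam X n) {K : Type} [Field K] [NumberField K] {io : K →+* ℂ} {k : ℕ} {T : ℝ}
    (hT : 0 ≤ T) {A B : Type} [Fintype A] [Fintype B] {ζ : A → ℂ} {ρ : B → ℂ} {s : X → K}
    (hU : (fun j => io (s j)) ∈ F.U)
    (h1 : N500.LPi.RelOK F K io k T ζ (fun j => io (s j)))
    (h2 : N500.LPi.RelOK F K io k T (Sum.elim ζ ρ) (fun j => io (s j)))
    (h3 : N500.LPi.RelOK F K io k T (fun p : A × B => ζ p.1 * ρ p.2) (fun j => io (s j))) :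
    Free F K io k T ζ ρ (fun j => io (s j)) := by
  classical
  have e1 : ∀ (c : A → B → (Ix n → Fin (k + 1)) → 𝓞 K) Y,
      ∑ v : A × B, ζ v.1 * ρ v.2 * pol io (c v.1 v.2) Y = ∑ a, ζ a * ∑ b, ρ b * pol io (c a b) Y := by
    intro c Y
    rw [Fintype.sum_prod_type]
    refine Finset.sum_congr rfl fun a _ => ?_
    rw [Finset.mul_sum]
    refine Finset.sum_congr rfl fun b _ => ?_
    rw [mul_assoc]
  refine ⟨h1, fun R hR hpi hρ a q c hq hqb hcb h => ?_, fun M hM hpi hρ hζ c hcb h a₀ => ?_,
    fun M hM hρ hζ d c hcb hd h a₀ => ?_⟩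
  · refine N500.LPi.no_new R hR hpi F io s hU ρ hρ c q hq (ζ a) fun Y hY => ?_
    set d : A ⊕ B → (Ix n → Fin (k + 1)) → 𝓞 K :=
      Sum.elim (fun a' l => if a' = a ∧ l = (fun _ => 0) then q else 0) (fun b l => - c b l) with hd
    have e1 : ∀ Y, ∑ v, Sum.elim ζ ρ v * pol io (d v) Y =
        io (q : K) * ζ a - ∑ b, ρ b * pol io (c b) Y := by
      intro Y
      rw [Fintype.sum_sum_type]
      have e2 : ∑ a', Sum.elim ζ ρ (Sum.inl a') * pol io (d (Sum.inl a')) Y = io (q : K) * ζ a := by
        rw [Finset.sum_eq_single a]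
        · show ζ a * pol io (fun l => if a = a ∧ l = (fun _ => 0) then q else 0) Y = _
          rw [mul_comm]
          congr 1
          rw [pol, Finset.sum_eq_single (fun _ => 0)]
          · rw [if_pos ⟨rfl, rfl⟩]
            simp
          · intro l _ hl
            rw [if_neg (fun h => hl h.2)]
            simp
          · intro h; exact absurd (Finset.mem_univ _) h
        · intro a' _ ha'
          have e3 : pol io (d (Sum.inl a')) Y = 0 := by
            rw [pol]
            refine Finset.sum_eq_zero fun l _ => ?_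
            show io ((if a' = a ∧ l = (fun _ => 0) then q else 0 : 𝓞 K) : K) * _ = 0
            rw [if_neg (fun h => ha' h.1)]
            simp
          rw [e3, mul_zero]
        · intro h; exact absurd (Finset.mem_univ _) h
      have e4 : ∑ b, Sum.elim ζ ρ (Sum.inr b) * pol io (d (Sum.inr b)) Y = - ∑ b, ρ b * pol io (c b) Y := by
        rw [← Finset.sum_neg_distrib]
        refine Finset.sum_congr rfl fun b _ => ?_
        show ρ b * pol io (fun l => - c b l) Y = _
        rw [← mul_neg, pol, pol, ← Finset.sum_neg_distrib]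
        congr 1
        refine Finset.sum_congr rfl fun l _ => ?_
        have : ((- c b l : 𝓞 K) : K) = - (c b l : K) := rfl
        rw [this, map_neg, neg_mul]
      rw [e2, e4, sub_eq_add_neg]
    have hdb : ∀ v l, Bd k T (d v l) := by
      rintro (a' | b) l φ
      · show ‖φ ((if a' = a ∧ l = (fun _ => 0) then q else 0 : 𝓞 K) : K)‖ ≤ _
        split_ifs
        · exact hqb φ
        · simpa using pow_nonneg hT k
      · show ‖φ ((- c b l : 𝓞 K) : K)‖ ≤ _
        have : ((- c b l : 𝓞 K) : K) = - (c b l : K) := rfl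
        rw [this, map_neg, norm_neg]
        exact hcb b l φ
    have h4 := h2 d hdb (by rw [e1, h, sub_self]) Y hY
    rw [e1, sub_eq_zero] at h4
    exact h4
  · have := hM
    refine N500.LPi.disj M hpi F io s hU ζ hζ ρ hρ c (fun Y hY => ?_) a₀
    rw [← e1]
    exact h3 (fun v => c v.1 v.2) (fun v l => hcb _ _ _) (by rw [e1, h]) Y hY
  · have := hM
    refine N500.LPi.disj_hom M F io s hU ζ hζ ρ hρ c d hd (fun Y hY => ?_) a₀
    rw [← e1]
    exact h3 (fun v => c v.1 v.2) (fun v l => hcb _ _ _) (by rw [e1, h]) Y hY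

/-- **The periods near a given point produce no new numbers.** (1) Let `F` be a family with symplectic monodromy over an
open subset `U` of `ℂ ^ X` and `L` a countable set of complex numbers. For all `d` and `τ > 0` there is a set `E` of
Hausdorff dimension at most `2 d (|X| - 1) / τ` such that for all `ξ` in `U` outside `E`, all number fields `K` of degree
at most `d` with an embedding `io` in `ℂ`, all finite families `ζ`, `ρ` of elements of `L`, all `k`, `C` and all large
`T`: the numbers `ζ a`, `ρ b` are free of the periods (`Free`) at the points with coordinates in `K` of height at most `T`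
at distance at most `C T ^ (-τ)` from `ξ`. If `|X| = 1`, then there is one set `E` of Hausdorff dimension zero with this
property for all number fields and all `τ > 0`.
(2) The ring `Qpi` of the polynomials in `π` with algebraic coefficients, which can be taken for `R`, contains no
`1 / π ^ r`, `r ≥ 1`; it does not contain both `e` and `1 / e`; and it contains `e / π ^ r` and `γ / π ^ r` only for
finitely many `r`. The powers of `e`, and those of `1 / π`, are linearly independent over the algebraic numbers, which can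
be taken for `M` in `Free.hom`.
(3) The period matrices of all products of hyperelliptic curves `y² = ∏ (x - e i r)`, `r ≤ n i`, `n i` even, are such a
family. -/
theorem result :
    (∀ (X : Type) [Fintype X] [DecidableEq X] [Nonempty X] (ι : Type) [Fintype ι] [DecidableEq ι] (n : ι → ℕ)
      (F : SympFam X n) (L : Set ℂ), L.Countable →
      (∀ (d : ℕ) (τ : ℝ), 0 < τ → ∃ E : Set (X → ℂ),
        dimH E ≤ ENNReal.ofReal (2 * (d : ℝ) * ((Fintype.card X : ℝ) - 1) / τ) ∧
        ∀ ξ ∈ F.U, ξ ∉ E → ∀ (K : Type) [Field K] [NumberField K], Module.finrank ℚ K ≤ d → ∀ (io : K →+* ℂ)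
          (A B : Type) [Fintype A] [Fintype B] (ζ : A → ℂ) (ρ : B → ℂ), (∀ a, ζ a ∈ L) → (∀ b, ρ b ∈ L) →
            ∀ (k : ℕ) (C : ℝ), ∃ T₁ : ℝ, ∀ T : ℝ, T₁ ≤ T → ∀ s : X → K,
              Near io T (C * T ^ (-τ)) ξ s → Free F K io k T ζ ρ (fun j => io (s j))) ∧
      (Fintype.card X = 1 → ∃ E : Set (X → ℂ), dimH E = 0 ∧
        ∀ ξ ∈ F.U, ξ ∉ E → ∀ (K : Type) [Field K] [NumberField K] (io : K →+* ℂ)
          (A B : Type) [Fintype A] [Fintype B] (ζ : A → ℂ) (ρ : B → ℂ), (∀ a, ζ a ∈ L) → (∀ b, ρ b ∈ L) →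
            ∀ (k : ℕ) (τ C : ℝ), 0 < τ → ∃ T₁ : ℝ, ∀ T : ℝ, T₁ ≤ T → ∀ s : X → K,
              Near io T (C * T ^ (-τ)) ξ s → Free F K io k T ζ ρ (fun j => io (s j)))) ∧
    ((∀ z : ℂ, IsAlgebraic ℚ z → z ∈ Qpi) ∧ (Real.pi : ℂ) ∈ Qpi ∧
      (∀ r : ℕ, 0 < r → (1 / (Real.pi : ℂ)) ^ r ∉ Qpi) ∧
      (Complex.exp 1 ∉ Qpi ∨ (Complex.exp 1)⁻¹ ∉ Qpi) ∧
      ∃ r₀ : ℕ, ∀ r : ℕ, r₀ ≤ r → Complex.exp 1 * (1 / (Real.pi : ℂ)) ^ r ∉ Qpi ∧
        (Real.eulerMascheroniConstant : ℂ) * (1 / (Real.pi : ℂ)) ^ r ∉ Qpi) ∧
    (∀ m : ℕ, LinearIndependent (algebraicClosure ℚ ℂ).toSubfield (fun j : Fin m => Complex.exp 1 ^ (j : ℕ)) ∧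
      LinearIndependent (algebraicClosure ℚ ℂ).toSubfield (fun j : Fin m => (1 / (Real.pi : ℂ)) ^ (j : ℕ))) ∧
    ∀ (ι : Type) [Fintype ι] [DecidableEq ι] (n : ι → ℕ), (∀ i, Even (n i)) →
      ∃ F : SympFam (Σ i, Fin (n i + 1)) n, F.U = Y890.HE.Conf n ∧ (∀ i, F.w i = 1) ∧
        ∀ i e, F.P i e = Y890.HE.pm n e i := by
  refine ⟨fun X _ _ _ ι _ _ n F L hL => ?_, ?_,
    fun m => ⟨N500.LPi.lin_pow H340R2.LW.transcendental_exp_one_complex m,
      N500.LPi.lin_pow N500.LPi.transcendental_inv_pi m⟩,
    fun _ _ _ n hn => ⟨hyp n hn, rfl, fun _ => rfl, fun _ _ => rfl⟩⟩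
  · have hL' : (L ∪ Set.image2 (fun a b => a * b) L L).Countable := hL.union (hL.image2 hL _)
    obtain ⟨h1, h2⟩ := N500.LPi.nearAll F _ hL'
    have key : ∀ (K : Type) [Field K] [NumberField K] (io : K →+* ℂ) (τ : ℝ) (E : Set (X → ℂ)),
        N500.LPi.NearE F K io (L ∪ Set.image2 (fun a b => a * b) L L) τ E →
        ∀ ξ ∈ F.U, ξ ∉ E → ∀ (A B : Type) [Fintype A] [Fintype B] (ζ : A → ℂ) (ρ : B → ℂ),
          (∀ a, ζ a ∈ L) → (∀ b, ρ b ∈ L) → ∀ (k : ℕ) (C : ℝ), ∃ T₁ : ℝ, ∀ T : ℝ, T₁ ≤ T → ∀ s : X → K,
            Near io T (C * T ^ (-τ)) ξ s → Free F K io k T ζ ρ (fun j => io (s j)) := by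
      intro K _ _ io τ E hE ξ hξ hξE A B _ _ ζ ρ hζ hρ k C
      obtain ⟨T₁, hT₁⟩ := hE ξ hξ hξE A ζ (fun a => Or.inl (hζ a)) k C
      obtain ⟨T₂, hT₂⟩ := hE ξ hξ hξE (A ⊕ B) (Sum.elim ζ ρ) (by
        rintro (a | b)
        · exact Or.inl (hζ a)
        · exact Or.inl (hρ b)) k C
      obtain ⟨T₃, hT₃⟩ := hE ξ hξ hξE (A × B) (fun p => ζ p.1 * ρ p.2)
        (fun p => Or.inr ⟨_, hζ p.1, _, hρ p.2, rfl⟩) k C
      refine ⟨max (max T₁ T₂) (max T₃ 0), fun T hT s hs => ?_⟩
      have ha : T₁ ≤ T := ((le_max_left _ _).trans (le_max_left _ _)).trans hT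
      have hb : T₂ ≤ T := ((le_max_right _ _).trans (le_max_left _ _)).trans hT
      have hc : T₃ ≤ T := ((le_max_left _ _).trans (le_max_right _ _)).trans hT
      have h0 : 0 ≤ T := ((le_max_right _ _).trans (le_max_right _ _)).trans hT
      exact free_of F h0 (hT₁ T ha s hs).1 (hT₁ T ha s hs).2 (hT₂ T hb s hs).2 (hT₃ T hc s hs).2
    refine ⟨fun d τ hτ => ?_, fun hX => ?_⟩
    · obtain ⟨E, hE, h⟩ := h1 d τ hτ
      exact ⟨E, hE, fun ξ hξ hξE K _ _ hK io => key K io τ E (h K hK io) ξ hξ hξE⟩
    · obtain ⟨E, hE, h⟩ := h2 hX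
      refine ⟨E, hE, fun ξ hξ hξE K _ _ io A B _ _ ζ ρ hζ hρ k τ C hτ => ?_⟩
      exact key K io τ E (h K io τ hτ) ξ hξ hξE A B ζ ρ hζ hρ k C
  · have hγ : (Real.eulerMascheroniConstant : ℂ) ≠ 0 := by
      have h1 : (Real.eulerMascheroniConstant : ℝ) ≠ 0 :=
        ne_of_gt (lt_trans (by norm_num) Real.one_half_lt_eulerMascheroniConstant)
      exact_mod_cast h1
    obtain ⟨r₁, h1⟩ := N500.LPi.mul_pow_inv _ (Complex.exp_ne_zero 1)
    obtain ⟨r₂, h2⟩ := N500.LPi.mul_pow_inv _ hγ
    exact ⟨fun z hz => N500.LPi.alg_mem_Qpi hz, N500.LPi.pi_mem_Qpi, N500.LPi.inv_pi_pow,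
      N500.LPi.inv_or H340R2.LW.transcendental_exp_one_complex,
      max r₁ r₂, fun r hr => ⟨h1 r ((le_max_left _ _).trans hr), h2 r ((le_max_right _ _).trans hr)⟩⟩

end Pool.Agent.Results.MP_725b61_nt.NoNewNumbersNearAPoint
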