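import Pool.Agent.N113.LP.Fin
import Pool.Agent.N113.LP.Curves

/-!
# `e`, `1 / π`, Euler's constant and the periods of 100% of all affine hyperelliptic curves

The polynomials with algebraic coefficients in the periods of the algebraic forms on curves over the algebraic numbers
are periods in the sense of Kontsevich and Zagier. Is one of the numbers `e`, `1 / π`, `γ` of this kind? We order the tuples
of affine hyperelliptic curves `y² = F_j(x)`, `j < N`, with `F_j` in `Λ[x]` of degree at most `n_j + 1`,
`Λ = ℤ w_0 + … + ℤ w_q` any finitely generated group of complex numbers with `w_0 = 1` (for instance the ring of integers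
of a number field), by the size `T` of the coefficients, and let `x` be the point whose coordinates are all the periods of
the curves over `2 g_j` loops: those of `2 g_j` forms of the first and second kind, and, for odd `n_j`, those of the form of
the third kind.

Let `z_0, z_1, …` be any complex numbers (for instance `e`, `1 / π`, `γ`, …) and `β_0, β_1, …` any algebraic numbers (for
instance, an enumeration of all algebraic numbers). A polynomial is simple if its total degree is at most `ω` and its
coefficients are combinations of `β_0, …, β_(ω-1)` with integral coefficients at most `T ^ ω`; here `ω = ω(T)` tends to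
infinity. For 100% of the tuples of curves:

(1) no `z_i` which is not a polynomial in `π` with algebraic coefficients is a value `R(x) / c` with simple `R` and `c`. In
particular `1 / π` is never such a value. If all the monomials of `R` have odd weight (for instance, if `R` is a linear form) and
`z_i ≠ 0`, then `z_i` is not such a value: this includes `e` and `γ`;
(2) if `z_i` is transcendental, then it satisfies no simple equation `∑ A_l(x) z_i ^ l = 0` with homogeneous `A_l` of the same
weight, unless all `A_l(x)` are `0`. Here the periods of the first and second kind have the weight `1`, and those of the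
third kind have arbitrary weights `κ`, for instance `0`. So `e`, `1 / π`, and also `γ` if it is transcendental, are
transcendental over the field generated by the ratios of the periods of the first and second kind and the periods of
the third kind, as long as the equations are simple;
(3) more generally, if `z_0, …, z_(ω-1)` are linearly independent over the algebraic numbers, then there are no simple
relations `∑ A_i(x) z_i = 0` of this kind unless all `A_i(x)` are `0`;
(4) if `z_0, …, z_(ω-1)` are linearly independent over the algebraic closure of `ℚ(π)`, then there are no simple relations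
`∑ A_i(x) z_i = 0` at all unless all `A_i(x)` are `0`; the same holds for equations `∑ A_l(x) z_i ^ l = 0` if `z_i` is
transcendental over `ℚ(π)`.

The input on the periods is the theorem of helper121 (`MP_5d33ca_ag.AffineHyperellipticCurves`): the relations between
the periods of 100% of the tuples hold on the torsor `{(Y, u) : Y_j polDR Y_jᵀ = 2πi polB}`, relative to arbitrary
constants. By scaling, homogeneous relations hold at the points of the torsor `{(Y, u) : Y_j polDR Y_jᵀ = polB}` with
algebraic coordinates, and these are dense.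
-/

set_option autoImplicit false

open Filter MvPolynomial Pool.Agent.N113.LP Pool.Agent.N113.LP.Curves

namespace Pool.Agent.Results.MP_725b61_nt.AffineHyperellipticCurves

/-- the algebraic closure of `ℚ(π)` in `ℂ` -/
noncomputable def overPi : Subfield ℂ :=
  (algebraicClosure (IntermediateField.adjoin ℚ {(Real.pi : ℂ)}) ℂ).toSubfield

theorem result {N : ℕ} (hN : 1 ≤ N) (n : Fin N → ℕ) (q : ℕ) (w : Fin (q + 1) → ℂ) (hw : w 0 = 1) :
    ∃ ω : ℕ → ℕ, Tendsto ω atTop atTop ∧ ∀ ε : ℝ, 0 < ε → ∃ T₀ : ℕ, ∀ T : ℕ, T₀ ≤ T →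
      ∀ z β : ℕ → ℂ, (∀ i, IsAlgebraic ℚ (β i)) →
      ∃ E ⊆ Box n q T, (E.card : ℝ) ≤ ε * (Box n q T).card ∧ ∀ b ∈ Box n q T, b ∉ E →
        ∃ e : ∀ j, Fin (n j + 1) → ℂ, (∀ j, Branch (pol n w b j) (e j)) ∧
        ∀ κ : (Σ j, Fin (n j % 2) × Fin (dim (n j))) → ℕ,
          (∀ i < ω T, ∀ (c : ℂ) (R : MvPolynomial (Ind n) ℂ),
            Combination β (ω T) ((T : ℝ) ^ ω T) c → c ≠ 0 → Simple β (ω T) ((T : ℝ) ^ ω T) R →
            c * z i = eval (allPeriods (pol n w b) e) R →
            z i ∈ Algebra.adjoin (algebraicClosure ℚ ℂ) {(Real.pi : ℂ)} ∧ z i ≠ 1 / Real.pi ∧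
            (z i ≠ 0 → ∃ s, R.coeff s ≠ 0 ∧ Even (Finsupp.weight (wt κ) s))) ∧
          (∀ i < ω T, Transcendental ℚ (z i) → ∀ (d : ℕ) (A : ℕ → MvPolynomial (Ind n) ℂ),
            (∀ l, Simple β (ω T) ((T : ℝ) ^ ω T) (A l) ∧ (A l).IsWeightedHomogeneous (wt κ) d) →
            ∑ l ∈ Finset.range (ω T), eval (allPeriods (pol n w b) e) (A l) * z i ^ l = 0 →
            ∀ l < ω T, eval (allPeriods (pol n w b) e) (A l) = 0) ∧
          ((∀ c : ℕ → ℂ, (∀ i, IsAlgebraic ℚ (c i)) → ∑ i ∈ Finset.range (ω T), c i * z i = 0 →
              ∀ i < ω T, c i = 0) →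
            ∀ (d : ℕ) (A : ℕ → MvPolynomial (Ind n) ℂ),
            (∀ i, Simple β (ω T) ((T : ℝ) ^ ω T) (A i) ∧ (A i).IsWeightedHomogeneous (wt κ) d) →
            ∑ i ∈ Finset.range (ω T), eval (allPeriods (pol n w b) e) (A i) * z i = 0 →
            ∀ i < ω T, eval (allPeriods (pol n w b) e) (A i) = 0) ∧
          ((∀ c : ℕ → ℂ, (∀ i, c i ∈ overPi) → ∑ i ∈ Finset.range (ω T), c i * z i = 0 →
              ∀ i < ω T, c i = 0) →
            ∀ A : ℕ → MvPolynomial (Ind n) ℂ, (∀ i, Simple β (ω T) ((T : ℝ) ^ ω T) (A i)) →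
            ∑ i ∈ Finset.range (ω T), eval (allPeriods (pol n w b) e) (A i) * z i = 0 →
            ∀ i < ω T, eval (allPeriods (pol n w b) e) (A i) = 0) ∧
          (∀ i < ω T, z i ∉ overPi → ∀ A : ℕ → MvPolynomial (Ind n) ℂ,
            (∀ l, Simple β (ω T) ((T : ℝ) ^ ω T) (A l)) →
            ∑ l ∈ Finset.range (ω T), eval (allPeriods (pol n w b) e) (A l) * z i ^ l = 0 →
            ∀ l < ω T, eval (allPeriods (pol n w b) e) (A l) = 0) := by
  classical
  obtain ⟨m, hm, H⟩ := good hN n q w hw
  refine ⟨m, hm, fun ε hε => ?_⟩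
  obtain ⟨T₀, hT₀⟩ := H ε hε
  refine ⟨T₀, fun T hT z β hβ => ?_⟩
  obtain ⟨E, hE1, hE2, hE3⟩ := hT₀ T hT z β
  refine ⟨E, hE1, hE2, fun b hb hbE => ?_⟩
  obtain ⟨e, he, hx, hg⟩ := hE3 b hb hbE
  have hH : (0 : ℝ) ≤ (T : ℝ) ^ m T := by positivity
  have hle : Ql (2 * Real.pi * Complex.I) ≤ overPi := Ql_mono tpi_mem
  have hfin : ∀ k : Subfield ℂ, (∀ c : ℕ → ℂ, (∀ i, c i ∈ k) →
      ∑ i ∈ Finset.range (m T), c i * z i = 0 → ∀ i < m T, c i = 0) →
      Indep k (fun i : Fin (m T) => z i) := by
    intro k h c hc h0 i
    have h1 := h (fun l => if hl : l < m T then c ⟨l, hl⟩ else 0) (fun l => by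
      split_ifs
      · exact hc _
      · exact k.zero_mem) (by
      rw [Finset.sum_range, ← h0]
      refine Finset.sum_congr rfl fun l _ => ?_
      rw [dif_pos l.2]) i i.2
    simpa using h1
  refine ⟨e, he, fun κ => ⟨?_, ?_, ?_, ?_, ?_⟩⟩
  · intro i hi c R hc hc0 hR h0
    obtain ⟨h1, h2⟩ := hg.value (G_hom n κ) (G_over n) (B_over n) hx hH hβ hi hc hc0 hR h0
    refine ⟨h1, fun h3 => ?_, h2⟩
    rw [h3, one_div] at h1
    exact inv_pi_not_mem h1
  · intro i hi htr d A hA h0 l hl
    exact hg.hom_one (G_hom n κ) (G_over n) (B_over n) tpi_ne hx hH hβ hi htr d A hA h0 l hl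
  · intro hz d A hA h0 i hi
    exact hg.hom_lin (G_hom n κ) (G_over n) (B_over n) tpi_ne hx hH hβ
      (hfin Qb (fun c hc => hz c fun i => mem_Qb.1 (hc i))) d A hA h0 i hi
  · intro hz A hA h0 i hi
    have h1 := hg.lin hH A hA h0
    exact gen_zero (G_over n) (B_over n) (hfin _ (fun c hc => hz c fun i => hle (hc i)))
      (fun i : Fin (m T) => (hA i).over hβ)
      (fun y hy => by
        have h2 := h1 y hy
        rwa [Finset.sum_range] at h2) ⟨i, hi⟩ hx
  · intro i hi hz A hA h0 l hl
    exact hg.gen_one (G_over n) (B_over n) hx hH hβ hi (fun h => hz (hle h)) A hA h0 l hl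

end Pool.Agent.Results.MP_725b61_nt.AffineHyperellipticCurves
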