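import Pool.Agent.N500.LPi.Random
import Pool.Agent.Results.MP_725b61_nt.NoNewNumbersNearAPoint

/-!
# The periods of random members of a family produce no new numbers: `e`, `1 / π`, Euler's constant

Polynomials with algebraic coefficients in the periods of the algebraic forms on a variety over the algebraic numbers are
periods in the sense of Kontsevich and Zagier. Fix a countable set `L` of complex numbers, for instance the algebraic
closure in `ℂ` of the field `ℚ(e, π, γ)`. Let `F` be a family with symplectic monodromy over an open subset of `ℂ ^ X` (for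
instance the products of the hyperelliptic curves), `K` a number field in `ℂ`, `β > 2 [K : ℚ] (|X| - 1)` (`β > 0` if there
is one parameter) and `S` a random set of `K`-rational points which contains `s` with probability `O (H (s) ^ (-β))`.
Almost surely, for ALL finite families `ζ`, `ρ` of elements of `L`, all but finitely many members `s ∈ S` in a compact part
of the base are free of `ζ`, `ρ` (`Free`, see the hand-in `NoNewNumbersNearAPoint`, which treats the points near a given
point), with the bounds `H (s) ^ k` for the coefficients; and the probability that `S` contains a point of height at least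
`y` which is not free is `O (y ^ (-η))` for all `η < β - 2 [K : ℚ] (|X| - 1)`.

The definitions (`Pool.Agent.Y890.SM`, `Pool.Agent.Y890.MV`, `Pool.Agent.N500.LPi`, `NoNewNumbersNearAPoint`):
* `SympFam X n` : the families; `F.P i x` the matrices of periods, `F.Q i` and `F.J i` the polarizations;
* `InnerM U k` : the points of norm at most `k` at distance at least `1 / k` from the complement of `U`;
* `ht s` : one plus the least natural number `m` such that all `s j` are quotients of integers of `K` all of whose
  conjugates have absolute value at most `m`;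
* `Sparse P S β C` : each `s` belongs to the random set `S` with probability at most `C H (s) ^ (-β)`;
* `Free F K io k T ζ ρ x` : relations between the periods at `x`, of degree at most `k` in each period, with coefficients
  integers of `K` with conjugates at most `T ^ k`: (rel) the relations with coefficients `ζ a` hold on the whole fibre over
  `2 π i` of the torsor of the period matrices; (ring) for all rings `R` which contain the algebraic numbers, `π` and the
  `ρ b`, a number `ζ a` which is `1 / q` times a polynomial in the periods with coefficients in the span of the `ρ b` is in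
  `R`; (field) for all algebraically closed fields `M` which contain `π` and the `ρ b`, if the `ζ a` are linearly
  independent over `M`, then all relations between them with coefficients polynomials in the periods and the `ρ b` (linear
  in the `ρ b`) are trivial; (hom) the same for all algebraically closed fields `M` which contain the `ρ b` if the
  polynomials are homogeneous of the same weight. In particular (`M` the algebraic numbers) `e` and `1 / π` satisfy no
  algebraic equation whose coefficients are homogeneous polynomials of the same weight in the periods, not all zero.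
-/

set_option autoImplicit false

open NumberField

namespace Pool.Agent.Results.MP_725b61_nt.RandomMembers

open MeasureTheory Pool.Agent Pool.Agent.Y890.MV Pool.Agent.Y890.SM Pool.Agent.R349.PC
open Pool.Agent.N500.LPi (ht Sparse)
open Pool.Agent.Results.MP_725b61_nt.NoNewNumbersNearAPoint (Free free_of)

variable {X : Type} [Fintype X] [DecidableEq X] {ι : Type} [Fintype ι] [DecidableEq ι] {n : ι → ℕ}

theorem innerM_mono {U : Set (X → ℂ)} {k k' : ℕ} (hk : 0 < k) (h : k ≤ k') : InnerM U k ⊆ InnerM U k' := by
  intro y hy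
  have h1 : (k : ℝ) ≤ k' := by exact_mod_cast h
  refine ⟨hy.1.trans h1, (Metric.ball_subset_ball ?_).trans hy.2⟩
  exact inv_anti₀ (by exact_mod_cast hk) h1

/-- the level at which two finite families are treated -/
theorem exists_level (F : SympFam X n) (K : Type) [Field K] [NumberField K] (io : K →+* ℂ) (L : Set ℂ) (f : ℕ → ℂ)
    (hf : L ∪ Set.image2 (fun a b => a * b) L L ⊆ Set.range f) {A B : Type} [Fintype A] [Fintype B] (ζ : A → ℂ)
    (ρ : B → ℂ) (hζ : ∀ a, ζ a ∈ L) (hρ : ∀ b, ρ b ∈ L) (k : ℕ) (hk : 0 < k) :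
    ∃ (kk : ℕ) (M : ℝ), 1 ≤ M ∧ Module.finrank ℚ K ≤ kk ∧ ∀ (s : X → K) (T : ℝ), M ≤ T →
      (∀ j, Y120.HtLe K T (s j)) → (fun j => io (s j)) ∈ InnerM F.U k →
        s ∉ F.Exceptional kk K io (fun a : Fin kk => f (a : ℕ)) T → Free F K io k T ζ ρ (fun j => io (s j)) := by
  classical
  choose i₁ hi₁ using fun a => hf (Or.inl (hζ a))
  choose i₂ hi₂ using fun b => hf (Or.inl (hρ b))
  choose i₃ hi₃ using fun p : A × B => hf (Or.inr ⟨_, hζ p.1, _, hρ p.2, rfl⟩)
  obtain ⟨N, hN⟩ : ∃ N : ℕ, N = ∑ a, i₁ a + ∑ b, i₂ b + ∑ p, i₃ p + 1 := ⟨_, rfl⟩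
  have h1 : ∀ a, i₁ a < N := fun a => by
    have := Finset.single_le_sum (f := i₁) (fun _ _ => Nat.zero_le _) (Finset.mem_univ a)
    omega
  have h2 : ∀ b, i₂ b < N := fun b => by
    have := Finset.single_le_sum (f := i₂) (fun _ _ => Nat.zero_le _) (Finset.mem_univ b)
    omega
  have h3 : ∀ p, i₃ p < N := fun p => by
    have := Finset.single_le_sum (f := i₃) (fun _ _ => Nat.zero_le _) (Finset.mem_univ p)
    omega
  set kk : ℕ := Module.finrank ℚ K + (k + 1) + N with hkk
  set M₁ : ℕ := Fintype.card (A × (Ix n → Fin (k + 1))) with hM₁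
  set M₂ : ℕ := Fintype.card ((A ⊕ B) × (Ix n → Fin (k + 1))) with hM₂
  set M₃ : ℕ := Fintype.card ((A × B) × (Ix n → Fin (k + 1))) with hM₃
  have hp1 : (0 : ℝ) ≤ M₁ := Nat.cast_nonneg _
  have hp2 : (0 : ℝ) ≤ M₂ := Nat.cast_nonneg _
  have hp3 : (0 : ℝ) ≤ M₃ := Nat.cast_nonneg _
  refine ⟨kk, 1 + M₁ + M₂ + M₃, by linarith, by omega, fun s T hT hs hin hne => ?_⟩
  have hT1 : 1 ≤ T := by linarith
  have hgen : F.Generic kk K io (fun a : Fin kk => f (a : ℕ)) T (fun j => io (s j)) := by
    by_contra hcon
    exact hne ⟨hs, innerM_mono hk (by omega) hin, hcon⟩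
  have e1 : (fun v => f (i₁ v)) = ζ := funext hi₁
  have e2 : (fun v : A ⊕ B => f (Sum.elim i₁ i₂ v)) = Sum.elim ζ ρ := by
    funext v
    rcases v with a | b
    · exact hi₁ a
    · exact hi₂ b
  have e3 : (fun v : A × B => f (i₃ v)) = fun p : A × B => ζ p.1 * ρ p.2 := funext hi₃
  refine free_of F (by linarith) (innerM_sub F.U hk hin) ?_ ?_ ?_
  · have h := N500.LPi.relOK_of_generic F hgen i₁ (fun v => by have := h1 v; omega) (k := k) (by omega) hT1
      (by rw [← hM₁]; linarith)
    rw [e1] at h
    exact h
  · have h := N500.LPi.relOK_of_generic F hgen (Sum.elim i₁ i₂) (by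
      rintro (a | b)
      · have := h1 a
        show i₁ a < kk
        omega
      · have := h2 b
        show i₂ b < kk
        omega) (k := k) (by omega) hT1 (by rw [← hM₂]; linarith)
    rw [e2] at h
    exact h
  · have h := N500.LPi.relOK_of_generic F hgen i₃ (fun v => by have := h3 v; omega) (k := k) (by omega) hT1
      (by rw [← hM₃]; linarith)
    rw [e3] at h
    exact h

/-- **The periods of random members produce no new numbers.** Let `F` be a family with symplectic monodromy over an open
subset of `ℂ ^ X`, `K` a number field with an embedding in `ℂ`, `L` a countable set of complex numbers,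
`β > 2 [K : ℚ] (|X| - 1)` and `S` a random set of `K`-rational points with `P (s ∈ S) ≤ C H (s) ^ (-β)`. (1) Almost surely
for all finite families `ζ`, `ρ` of elements of `L` and all `k ≥ 1` all but finitely many `s ∈ S` in `InnerM F.U k` are
free of `ζ` and `ρ` (with bounds `H (s) ^ k`). (2) For all finite families `ζ`, `ρ` of elements of `L`, all `k ≥ 1` and all
`η ≥ 0` with `η < β - 2 [K : ℚ] (|X| - 1)` the probability that there is an `s ∈ S` in `InnerM F.U k` of height at least
`y` which is not free of `ζ` and `ρ` is `O (y ^ (-η))`. -/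
theorem result :
    ∀ (X : Type) [Fintype X] [DecidableEq X] [Nonempty X] (ι : Type) [Fintype ι] [DecidableEq ι] (n : ι → ℕ)
      (F : SympFam X n) (K : Type) [Field K] [NumberField K] (io : K →+* ℂ) (L : Set ℂ), L.Countable →
      ∀ β : ℝ, 2 * (Module.finrank ℚ K : ℝ) * ((Fintype.card X : ℝ) - 1) < β →
      ∀ (Ω : Type) [MeasurableSpace Ω] (P : Measure Ω) [IsProbabilityMeasure P] (S : Ω → Set (X → K)) (C : ℝ),
      Sparse P S β C →
      (∀ᵐ ω ∂P, ∀ (A B : Type) [Fintype A] [Fintype B] (ζ : A → ℂ) (ρ : B → ℂ),
        (∀ a, ζ a ∈ L) → (∀ b, ρ b ∈ L) → ∀ k : ℕ, 0 < k →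
          {s : X → K | s ∈ S ω ∧ (fun j => io (s j)) ∈ InnerM F.U k ∧
            ¬ Free F K io k (ht s : ℝ) ζ ρ (fun j => io (s j))}.Finite) ∧
      ∀ (A B : Type) [Fintype A] [Fintype B] (ζ : A → ℂ) (ρ : B → ℂ), (∀ a, ζ a ∈ L) → (∀ b, ρ b ∈ L) →
        ∀ k : ℕ, 0 < k → ∀ η : ℝ, 0 ≤ η →
          2 * (Module.finrank ℚ K : ℝ) * ((Fintype.card X : ℝ) - 1) + η < β → ∃ D : ℝ, ∀ y : ℝ, 1 ≤ y →
            P {ω | ∃ s : X → K, s ∈ S ω ∧ (fun j => io (s j)) ∈ InnerM F.U k ∧ y ≤ (ht s : ℝ) ∧
              ¬ Free F K io k (ht s : ℝ) ζ ρ (fun j => io (s j))} ≤ ENNReal.ofReal (D * y ^ (-η)) := by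
  intro X _ _ _ ι _ _ n F K _ _ io L hL β hβ Ω _ P _ S C hS
  have hL' : (L ∪ Set.image2 (fun a b => a * b) L L).Countable := hL.union (hL.image2 hL _)
  obtain ⟨f, hf⟩ := Set.countable_iff_exists_subset_range.1 hL'
  constructor
  · have h1 : ∀ᵐ ω ∂P, ∀ kk : ℕ, Module.finrank ℚ K ≤ kk →
        {s : X → K | s ∈ F.Exceptional kk K io (fun a : Fin kk => f (a : ℕ)) (ht s : ℝ) ∧ s ∈ S ω}.Finite := by
      rw [ae_all_iff]
      intro kk
      by_cases hk : Module.finrank ℚ K ≤ kk
      · filter_upwards [(N500.LPi.random_exc F kk K hk io (fun a : Fin kk => f (a : ℕ)) le_rfl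
          (by linarith) hS).1] with ω h2 _
        exact h2
      · exact Filter.Eventually.of_forall fun ω h2 => absurd h2 hk
    filter_upwards [h1] with ω h2 A B _ _ ζ ρ hζ hρ k hk
    obtain ⟨kk, M, -, hkk, h3⟩ := exists_level F K io L f hf ζ ρ hζ hρ k hk
    refine ((h2 kk hkk).union (N500.LPi.ht_finite K M)).subset ?_
    rintro s ⟨h4, h5, h6⟩
    by_cases hM : M ≤ (ht s : ℝ)
    · refine Or.inl ⟨?_, h4⟩
      by_contra hcon
      exact h6 (h3 s _ hM (N500.LPi.ht_spec s) h5 hcon)
    · push Not at hM
      exact Or.inr hM.le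
  · intro A B _ _ ζ ρ hζ hρ k hk η hη hη'
    obtain ⟨kk, M, hM1, hkk, h3⟩ := exists_level F K io L f hf ζ ρ hζ hρ k hk
    obtain ⟨D, hD⟩ := (N500.LPi.random_exc F kk K hkk io (fun a : Fin kk => f (a : ℕ)) hη hη' hS).2
    have hM0 : 0 < M := by linarith
    refine ⟨max D (M ^ η), fun y hy => ?_⟩
    have hy0 : 0 < y := by linarith
    have hyη : 0 ≤ y ^ (-η) := Real.rpow_nonneg hy0.le _
    by_cases hyM : M ≤ y
    · refine (measure_mono ?_).trans ((hD y hy).trans (ENNReal.ofReal_le_ofReal
        (mul_le_mul_of_nonneg_right (le_max_left _ _) hyη)))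
      rintro ω ⟨s, h4, h5, h6, h7⟩
      refine ⟨s, ?_, h6, h4⟩
      by_contra hcon
      exact h7 (h3 s _ (hyM.trans h6) (N500.LPi.ht_spec s) h5 hcon)
    · push Not at hyM
      refine prob_le_one.trans ?_
      rw [← ENNReal.ofReal_one]
      refine ENNReal.ofReal_le_ofReal ?_
      have h4 : 1 ≤ M ^ η * y ^ (-η) := by
        rw [Real.rpow_neg hy0.le, ← div_eq_mul_inv, le_div_iff₀ (Real.rpow_pos_of_pos hy0 _), one_mul]
        exact Real.rpow_le_rpow hy0.le hyM.le hη
      exact h4.trans (mul_le_mul_of_nonneg_right (le_max_right _ _) hyη)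

end Pool.Agent.Results.MP_725b61_nt.RandomMembers
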