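import Pool.Agent.N603.DB.Per
import Pool.Agent.N156.HG.Main

/-!
# `e`, `1 / π`, Euler's constant, the periods of the curves of a family, and denominators of good approximations

Polynomials with algebraic coefficients in the periods of the algebraic forms on a variety over the algebraic numbers
are periods in the sense of Kontsevich and Zagier. Is one of the numbers `e`, `1 / π`, `γ` of this kind? Let `F` be a
family with symplectic monodromy over an open subset `U` of the line, for instance the products of the Legendre curve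
with parameter `x` and other curves whose periods at `x` are hypergeometric functions.

Let `α_1, …, α_m` be real numbers. We consider the natural numbers `q` with `‖q α_j - β_j‖ ≤ C q^(-τ)` for all `j`,
`‖x‖` the distance to the nearest integer; for `β = 0`, `C = 1`, `τ = 1 / m` these include the denominators of all
best simultaneous approximations (the denominators of the convergents for `m = 1`). They form a very sparse sequence,
with gaps growing exponentially for almost all `α` if `τ = 1 / m`. Let `G` be a function with steps bounded below by a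
positive constant and growth at most `v^e`, for example `a v^e`. We show: for all
`α` in `ℝ^m` outside a set of Hausdorff dimension at most `(m + κ) / (1 + τ)`, for all number fields `K` in `ℂ` and all
`k`: for all but finitely many of these `q`, for EVERY member of the family over a point `x` of `K` in `InnerM F.U k`
with a height `T` within `q^κ` of `G q`, none of the numbers `e`, `1 / π`, `γ` is a value at the periods at `x`: of a
polynomial with coefficients of height at most `T ^ k` and degree at most `k`, and for `e` and `γ` in another way than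
on the whole torsor of the period matrices. The same is true for the numbers `z ≠ 0` of any countable set `Z`, for
example of the field generated by `e`, `π` and `γ`. For `τ = 1 / m` and `κ < 1` the bound is less than `m`, so that the
statement holds for almost all `α`.

The definitions (`Pool.Agent.Y890.SM`, `Pool.Agent.Y890.MV`, `Pool.Agent.Y120`, `Pool.Agent.R349.PC`):
* `SympFam X n` : the families; `F.P i x` the matrices of periods, `F.Q i` and `F.J i` the polarizations;
* `F.torsor x` : the pairs `(Y, μ)`, `μ ≠ 0`, with `Y i * Q i(x) * (Y i)ᵀ = μ ^ w i J i` for all `i`; it contains the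
  matrices of the periods and `2 π i`;
* `pol io c Y` : the polynomial with coefficients `c l` of degree at most `k` in each entry of the matrices `Y i`;
* `Bd k T x` : all conjugates of the integer `x` of `K` are at most `T ^ k`;
* `InnerM U k` : the points of norm at most `k` at distance at least `1 / k` from the complement of `U`.

Proof. The elements of height at most `T` in the compact set which are bad at their own height are `O(T^ε)` in number
for every `ε > 0` (the covering argument of `PeriodsInSmallBalls`); the `q` for which a bad element has a height near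
`G q` form a set with `O(X^(κ + ε))` elements up to `X`, and the `α` with infinitely many approximations with
denominators in such a set are covered by few small cubes (`Pool.Agent.N671.DA`). There are only countably many number
fields in `ℂ`.
-/

set_option autoImplicit false

open NumberField

namespace Pool.Agent.Results.MP_725b61_nt.SimultaneousApproximations

open Pool.Agent Pool.Agent.Y890.MV Pool.Agent.Y890.SM Pool.Agent.R349.PC
open Pool.Agent.N671.DA (Solves Expanding expanding_pow)

/-- The height of `x`: the least `T` such that `x` is a quotient of two integers of `K` all of whose conjugates have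
absolute value at most `T`. -/
noncomputable def height (K : Type) [Field K] [NumberField K] (x : K) : ℝ := sInf {T : ℝ | Y120.HtLe K T x}

section

variable {X : Type} [Fintype X] [DecidableEq X] {ι : Type} [Fintype ι] [DecidableEq ι] {n : ι → ℕ}

/-- `z` is `1 / q` times the value at the periods at `x` of a polynomial of degree at most `k` in each entry, `q ≠ 0`
and the coefficients integers of `K` with conjugates at most `T ^ k` -/
def Value (F : SympFam X n) (k : ℕ) (K : Type) [Field K] [NumberField K] (io : K →+* ℂ) (T : ℝ) (z : ℂ)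
    (x : X → ℂ) : Prop :=
  ∃ (q : 𝓞 K) (c : (Ix n → Fin (k + 1)) → 𝓞 K), q ≠ 0 ∧ Bd k T q ∧ (∀ l, Bd k T (c l)) ∧
    io (q : K) * z = pol io c (fun i => F.P i x)

/-- `z` is such a value and the polynomial either is not constant, equal to `q z`, on the set
of all `Y` with `(Y, 2 π i)` in the torsor, or all its monomials have odd degree -/
def NontrivialValue (F : SympFam X n) (k : ℕ) (K : Type) [Field K] [NumberField K] (io : K →+* ℂ) (T : ℝ) (z : ℂ)
    (x : X → ℂ) : Prop :=
  ∃ (q : 𝓞 K) (c : (Ix n → Fin (k + 1)) → 𝓞 K), q ≠ 0 ∧ Bd k T q ∧ (∀ l, Bd k T (c l)) ∧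
    io (q : K) * z = pol io c (fun i => F.P i x) ∧
    ((∃ Y, (Y, tpi) ∈ F.torsor x ∧ io (q : K) * z ≠ pol io c Y) ∨ ∀ l, c l ≠ 0 → Odd (∑ y, (l y : ℕ)))

end

/-- **`e`, `1 / π`, `γ`, periods and denominators of good approximations.**
(1) Let `Z` be a countable set of complex numbers, `F` a family with symplectic monodromy with one parameter, let `G`
have steps `≥ a > 0` and growth at most `v^e`, `0 ≤ κ ≤ 1`, `β` in `ℝ^m` and `τ > 0`. There is a set `E` in `ℝ^m` of
Hausdorff dimension at most `(m + κ) / (1 + τ)` such that for all `α` outside `E`, all number fields `K` in `ℂ`, all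
`k ≥ [K : ℚ]`, all `C` and all large `q` with `‖q α_j - β_j‖ ≤ C q^(-τ)` for all `j`: for EVERY `x` in `K` with
`|height x - G q| ≤ q^κ` in `InnerM F.U k`: `1 / π` is not a value, and `e` and `γ` are not nontrivial values, for the
degree `k` and the bound `(height x) ^ k` for the coefficients. For each number `z ≠ 0` of `Z` it is not a nontrivial
value if `q` is large in terms of `z`.
(2) For every finite set `A` of rational numbers `0 < μ ≤ 1/2` the matrices
`(W (x), W'(x); W (1 - x), -W'(1 - x))`, `W (x) = ∫ t^(-μ) (1 - t)^(μ - 1) (1 - x t)^(-μ) dt` over `[0, 1]`, for all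
`μ ∈ A` are such a family over the plane without `(-∞, 0]` and `[1, ∞)`; the torsor at `x` consists of all `(Y, ν)`,
`ν ≠ 0`, with `- 2 i sin (π μ) x (1 - x) det (Y μ) = ν` for all `μ`.
The infimum in the definition of the height is a minimum, and the functions `a v^e` with `a > 0`, `e ≥ 1` are examples
of `G`. -/
theorem result :
    (∀ (Z : Set ℂ), Z.Countable → ∀ (X : Type) [Fintype X] [DecidableEq X] [Nonempty X], Fintype.card X = 1 →
      ∀ (ι : Type) [Fintype ι] [DecidableEq ι] (n : ι → ℕ) (F : SympFam X n)
      (G : ℕ → ℝ) (e : ℝ), Expanding G e → ∀ κ : ℝ, 0 ≤ κ → κ ≤ 1 →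
      ∀ (m : ℕ) (β : Fin m → ℝ) (τ : ℝ), 0 < τ →
      ∃ E : Set (Fin m → ℝ), dimH E ≤ ENNReal.ofReal ((m + κ) / (1 + τ)) ∧
        ∀ α, α ∉ E → ∀ (K : IntermediateField ℚ ℂ) [NumberField K] (k : ℕ), Module.finrank ℚ K ≤ k →
          (∀ C : ℝ, ∃ Q : ℕ, ∀ q : ℕ, Q ≤ q →
            Solves α β q (C * (q : ℝ) ^ (-τ)) → ∀ x : K, (fun _ : X => (x : ℂ)) ∈ InnerM F.U k →
              |height K x - G q| ≤ (q : ℝ) ^ κ →
                ¬ Value F k K (algebraMap K ℂ) (height K x) ((1 / Real.pi : ℝ) : ℂ) (fun _ => (x : ℂ)) ∧
                ¬ NontrivialValue F k K (algebraMap K ℂ) (height K x) ((Real.exp 1 : ℝ) : ℂ) (fun _ => (x : ℂ)) ∧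
                ¬ NontrivialValue F k K (algebraMap K ℂ) (height K x) ((Real.eulerMascheroniConstant : ℝ) : ℂ)
                  (fun _ => (x : ℂ))) ∧
          ∀ z ∈ Z, z ≠ 0 → ∀ C : ℝ, ∃ Q : ℕ, ∀ q : ℕ, Q ≤ q →
            Solves α β q (C * (q : ℝ) ^ (-τ)) → ∀ x : K, (fun _ : X => (x : ℂ)) ∈ InnerM F.U k →
              |height K x - G q| ≤ (q : ℝ) ^ κ →
                ¬ NontrivialValue F k K (algebraMap K ℂ) (height K x) z (fun _ => (x : ℂ))) ∧
    (∀ A : Finset ℚ, (∀ μ ∈ A, 0 < μ ∧ μ ≤ 1 / 2) →
      ∃ F : SympFam (Fin 1) (fun _ : Fin 1 × A => 2),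
        F.U = {x | x 0 ∈ Complex.slitPlane ∧ 1 - x 0 ∈ Complex.slitPlane} ∧
        (∀ q x, F.P q x = N156.HG.PH ((q.2.1 : ℚ) : ℝ) (x 0)) ∧
        ∀ x p, p ∈ F.torsor x ↔ p.2 ≠ 0 ∧ ∀ q, -(2 * Complex.I) *
          ((Real.sin (Real.pi * (q.2.1 : ℚ)) : ℝ) : ℂ) * (x 0 * (1 - x 0)) * (p.1 q).det = p.2) ∧
    (∀ (K : Type) [Field K] [NumberField K] (x : K) (T : ℝ), height K x ≤ T ↔ Y120.HtLe K T x) ∧
    ∀ a e : ℝ, 0 < a → 1 ≤ e → Expanding (fun v => a * (v : ℝ) ^ e) e := by
  refine ⟨fun Z hZ X _ _ _ hX ι _ _ n F G e hG κ hκ hκ1 m β τ hτ => ?_, fun A hA => ?_,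
    fun K _ _ x T => N603.DB.height_le_iff K x T, fun a e ha he => expanding_pow ha he⟩
  · have hZ' : (Z ∪ {((Real.exp 1 : ℝ) : ℂ), ((Real.eulerMascheroniConstant : ℝ) : ℂ)}).Countable :=
      hZ.union ((Set.finite_singleton _).insert _).countable
    obtain ⟨E, hE, h⟩ := N603.DB.all F hX hZ' hG hκ hκ1 β hτ
    refine ⟨E, hE, fun α hα K _ k hk => ?_⟩
    have key : ∀ z ∈ Z ∪ {((Real.exp 1 : ℝ) : ℂ), ((Real.eulerMascheroniConstant : ℝ) : ℂ)}, z ≠ 0 → ∀ C : ℝ,
        ∃ Q : ℕ, ∀ q : ℕ, Q ≤ q →
            Solves α β q (C * (q : ℝ) ^ (-τ)) → ∀ x : K, (fun _ : X => (x : ℂ)) ∈ InnerM F.U k →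
              |height K x - G q| ≤ (q : ℝ) ^ κ →
                ¬ NontrivialValue F k K (algebraMap K ℂ) (height K x) z (fun _ => (x : ℂ)) ∧
                ¬ Value F k K (algebraMap K ℂ) (height K x) ((1 / Real.pi : ℝ) : ℂ) (fun _ => (x : ℂ)) := by
      intro z hz hz0 C
      obtain ⟨Q, hQ⟩ := h α hα K k hk z hz C
      refine ⟨Q, fun q hq hs x hx hG' => ?_⟩
      have hgood := hQ q hq hs x hx hG'
      constructor
      · rintro ⟨q, c, h5, h6, h7, h8, h9⟩
        rcases h9 with ⟨Y, hY, h10⟩ | h9
        · exact h10 (hgood.1 q c h6 h7 h8 Y hY)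
        · exact hgood.2.1 hz0 q c h5 h6 h7 h9 h8
      · rintro ⟨q, c, h5, h6, h7, h8⟩
        refine hgood.2.2.1 q c h5 h6 h7 ?_
        rw [← h8]
        push_cast
        rw [one_div]
    refine ⟨fun C => ?_, fun z hz hz0 C => ?_⟩
    · obtain ⟨Q₁, h₁⟩ := key ((Real.exp 1 : ℝ) : ℂ) (by simp)
        (by exact_mod_cast (Real.exp_pos 1).ne') C
      obtain ⟨Q₂, h₂⟩ := key ((Real.eulerMascheroniConstant : ℝ) : ℂ) (by simp)
        (by
          have := Real.one_half_lt_eulerMascheroniConstant
          have h0 : Real.eulerMascheroniConstant ≠ 0 := by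
            intro h0
            rw [h0] at this
            norm_num at this
          exact_mod_cast h0) C
      refine ⟨max Q₁ Q₂, fun q hq hs x hx hG' => ?_⟩
      have e1 := h₁ q ((le_max_left _ _).trans hq) hs x hx hG'
      have e2 := h₂ q ((le_max_right _ _).trans hq) hs x hx hG'
      exact ⟨e1.2, e1.1, e2.1⟩
    · obtain ⟨Q, hQ⟩ := key z (Or.inl hz) hz0 C
      exact ⟨Q, fun q hq hs x hx hG' => (hQ q hq hs x hx hG').1⟩
  · have h1 : ∀ i : Fin 1, i = 0 := fun i => Subsingleton.elim i 0
    refine ⟨N156.HG.famH 0 A hA, ?_, ?_, ?_⟩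
    · ext x
      refine N156.HG.mem_UU.trans ?_
      constructor
      · intro h
        exact h 0
      · intro h i
        rw [h1 i]
        exact h
    · intro q x
      show N156.HG.PH _ (x q.1) = _
      rw [h1 q.1]
    · intro x p
      rw [← N156.HG.torH_eq hA x]
      unfold N156.HG.torH
      rw [Set.mem_ofPred_eq]
      refine and_congr_right fun _ => forall_congr' fun q => ?_
      rw [h1 q.1]

end Pool.Agent.Results.MP_725b61_nt.SimultaneousApproximations
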